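import Mathlib

set_option autoImplicit false

open Set Filter Topology Polynomial

namespace Pool.Agent.Results.MP_d888c7_an.NoBoundedVariation

/-- The class `Ω` of the problem. -/
def InOmega (ω : ℝ → ℝ) : Prop :=
  ContinuousOn ω (Icc 0 1) ∧ (∀ x ∈ Icc (0:ℝ) 1, 0 < ω x) ∧ ω 0 = 1 ∧
    IntervalIntegrable ω MeasureTheory.volume 0 1 ∧
    IntervalIntegrable (fun x => |1 - ω x| * x⁻¹) MeasureTheory.volume 0 1

/-- The sequence `λ_n`. -/
noncomputable def lam (ω₁ ω₂ : ℝ → ℝ) : ℕ → ℝ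
  | 0 => 1
  | n + 1 => (∫ x in (0:ℝ)..1, ω₁ x * x ^ n) * (∫ x in (0:ℝ)..1, ω₂ x * x ^ n)⁻¹

/-- `I` is the Riemann–Stieltjes integral of `f` with respect to `β` over `[0,1]`. -/
def IsRSIntegral (f β : ℝ → ℝ) (I : ℝ) : Prop :=
  ∀ ε > 0, ∃ δ > 0, ∀ (N : ℕ) (t ξ : ℕ → ℝ), t 0 = 0 → t N = 1 →
    (∀ i < N, t i ≤ ξ i ∧ ξ i ≤ t (i + 1) ∧ t (i + 1) - t i < δ) →
    |(∑ i ∈ Finset.range N, f (ξ i) * (β (t (i + 1)) - β (t i))) - I| < ε

/-! ### Riemann–Stieltjes functionals are bounded -/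

/-- the functional on polynomials with given moments -/
noncomputable def Lf (l : ℕ → ℝ) : ℝ[X] →ₗ[ℝ] ℝ := (Polynomial.basisMonomials ℝ).constr ℝ l

lemma Lf_X_pow (l : ℕ → ℝ) (n : ℕ) : Lf l (X ^ n) = l n := by
  have h : (X ^ n : ℝ[X]) = Polynomial.basisMonomials ℝ n := by
    rw [Polynomial.coe_basisMonomials]
    exact (Polynomial.monomial_one_right_eq_X_pow n).symm
  rw [h, Lf, Module.Basis.constr_basis]

lemma rs_add {f g β : ℝ → ℝ} {I J : ℝ} (hf : IsRSIntegral f β I) (hg : IsRSIntegral g β J) :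
    IsRSIntegral (fun x => f x + g x) β (I + J) := by
  intro ε hε
  obtain ⟨δ, hδ, h1⟩ := hf (ε/2) (by positivity)
  obtain ⟨δ', hδ', h2⟩ := hg (ε/2) (by positivity)
  refine ⟨min δ δ', lt_min hδ hδ', fun N t ξ h0 hN h => ?_⟩
  have h3 := h1 N t ξ h0 hN (fun i hi => ⟨(h i hi).1, (h i hi).2.1,
    lt_of_lt_of_le (h i hi).2.2 (min_le_left _ _)⟩)
  have h4 := h2 N t ξ h0 hN (fun i hi => ⟨(h i hi).1, (h i hi).2.1,
    lt_of_lt_of_le (h i hi).2.2 (min_le_right _ _)⟩)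
  have h5 : (∑ i ∈ Finset.range N, (f (ξ i) + g (ξ i)) * (β (t (i + 1)) - β (t i))) - (I + J)
      = ((∑ i ∈ Finset.range N, f (ξ i) * (β (t (i + 1)) - β (t i))) - I)
        + ((∑ i ∈ Finset.range N, g (ξ i) * (β (t (i + 1)) - β (t i))) - J) := by
    simp only [add_mul]
    rw [Finset.sum_add_distrib]; ring
  rw [h5]
  calc _ ≤ _ := abs_add_le _ _
    _ < ε := by linarith

lemma rs_smul {f β : ℝ → ℝ} {I : ℝ} (c : ℝ) (hf : IsRSIntegral f β I) :
    IsRSIntegral (fun x => c * f x) β (c * I) := by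
  intro ε hε
  obtain ⟨δ, hδ, h1⟩ := hf (ε / (|c| + 1)) (by positivity)
  refine ⟨δ, hδ, fun N t ξ h0 hN h => ?_⟩
  have h3 := h1 N t ξ h0 hN h
  have h5 : (∑ i ∈ Finset.range N, (c * f (ξ i)) * (β (t (i + 1)) - β (t i))) - c * I
      = c * ((∑ i ∈ Finset.range N, f (ξ i) * (β (t (i + 1)) - β (t i))) - I) := by
    rw [mul_sub, Finset.mul_sum]
    congr 1
    apply Finset.sum_congr rfl
    intro i _; ring
  rw [h5, abs_mul]
  calc |c| * _ ≤ |c| * (ε / (|c| + 1)) := by gcongr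
    _ < ε := by
      rw [mul_div_assoc', div_lt_iff₀ (by positivity)]
      nlinarith [abs_nonneg c]

lemma rs_poly {β : ℝ → ℝ} {l : ℕ → ℝ} (h : ∀ n, IsRSIntegral (fun x => x ^ n) β (l n)) (p : ℝ[X]) :
    IsRSIntegral (fun x => p.eval x) β (Lf l p) := by
  induction p using Polynomial.induction_on' with
  | add p q hp hq =>
    rw [map_add]
    have := rs_add hp hq
    simpa using this
  | monomial n a =>
    have h1 := rs_smul a (h n)
    have h2 : (monomial n a : ℝ[X]) = a • X ^ n := by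
      rw [← Polynomial.C_mul_X_pow_eq_monomial, Polynomial.smul_eq_C_mul]
    rw [h2, map_smul, Lf_X_pow, smul_eq_mul]
    simpa using h1

lemma rs_bound {f β : ℝ → ℝ} {I S : ℝ} (hβ : BoundedVariationOn β (Icc 0 1))
    (hf : IsRSIntegral f β I) (hS : ∀ x ∈ Icc (0:ℝ) 1, |f x| ≤ S) :
    |I| ≤ (eVariationOn β (Icc 0 1)).toReal * S := by
  apply le_of_forall_pos_le_add
  intro ε hε
  obtain ⟨δ, hδ, h1⟩ := hf ε hε
  obtain ⟨N, hN⟩ := exists_nat_one_div_lt hδ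
  set t : ℕ → ℝ := fun i => min ((i:ℝ) / (N + 1)) 1 with ht
  have hmono : Monotone t := by
    intro i j hij
    simp only [ht]
    have : (i:ℝ) ≤ j := by exact_mod_cast hij
    gcongr
  have hmem : ∀ i, t i ∈ Icc (0:ℝ) 1 := by
    intro i
    exact ⟨le_min (by positivity) zero_le_one, min_le_right _ _⟩
  have ht0 : t 0 = 0 := by simp [ht]
  have htN : t (N + 1) = 1 := by
    simp only [ht]
    push_cast
    rw [div_self (by positivity), min_self]
  have h2 := h1 (N+1) t t ht0 htN (by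
    intro i hi
    refine ⟨le_rfl, hmono (Nat.le_succ i), ?_⟩
    simp only [ht]
    have hi1 : (i:ℝ) + 1 ≤ N + 1 := by
      have : (i:ℝ) ≤ N := by exact_mod_cast Nat.lt_succ_iff.mp hi
      linarith
    have hle : (i:ℝ) / (N + 1) ≤ 1 := by
      rw [div_le_one (by positivity)]; linarith
    have hle2 : (((i+1 : ℕ)):ℝ) / (N + 1) ≤ 1 := by
      rw [div_le_one (by positivity)]; push_cast; linarith
    rw [min_eq_left hle, min_eq_left hle2]
    push_cast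
    have : ((i:ℝ) + 1) / (N + 1) - i / (N + 1) = 1 / (N + 1) := by ring
    rw [this]
    exact hN)
  have hvar : ∑ i ∈ Finset.range (N+1), |β (t (i + 1)) - β (t i)| ≤
      (eVariationOn β (Icc 0 1)).toReal := by
    have h3 := eVariationOn.sum_le (f := β) (s := Icc (0:ℝ) 1) (n := N+1) hmono hmem
    have h4 : ENNReal.ofReal (∑ i ∈ Finset.range (N+1), |β (t (i + 1)) - β (t i)|) ≤
        eVariationOn β (Icc 0 1) := by
      rw [ENNReal.ofReal_sum_of_nonneg (fun i _ => abs_nonneg _)]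
      refine le_trans (le_of_eq ?_) h3
      apply Finset.sum_congr rfl
      intro i _
      rw [edist_dist, Real.dist_eq]
    exact (ENNReal.ofReal_le_iff_le_toReal hβ).mp h4
  have hsum : |∑ i ∈ Finset.range (N+1), f (t i) * (β (t (i + 1)) - β (t i))| ≤
      (eVariationOn β (Icc 0 1)).toReal * S := by
    calc |∑ i ∈ Finset.range (N+1), f (t i) * (β (t (i + 1)) - β (t i))|
        ≤ ∑ i ∈ Finset.range (N+1), |f (t i) * (β (t (i + 1)) - β (t i))| :=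
          Finset.abs_sum_le_sum_abs _ _
      _ ≤ ∑ i ∈ Finset.range (N+1), |β (t (i + 1)) - β (t i)| * S := by
          apply Finset.sum_le_sum
          intro i _
          rw [abs_mul, mul_comm]
          gcongr
          exact hS _ (hmem i)
      _ = (∑ i ∈ Finset.range (N+1), |β (t (i + 1)) - β (t i)|) * S := by rw [Finset.sum_mul]
      _ ≤ _ := by
          apply mul_le_mul_of_nonneg_right hvar
          exact (abs_nonneg _).trans (hS 0 ⟨le_rfl, zero_le_one⟩)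
  have h6 := abs_sub_abs_le_abs_sub I (∑ i ∈ Finset.range (N+1), f (t i) * (β (t (i + 1)) - β (t i)))
  rw [abs_sub_comm] at h6
  linarith

/-! ### The Euler operator and the recurrence -/

/-- `x d/dx` -/
noncomputable def θ : ℝ[X] →ₗ[ℝ] ℝ[X] := (LinearMap.mulLeft ℝ (X : ℝ[X])).comp Polynomial.derivative

lemma θ_apply (p : ℝ[X]) : θ p = X * derivative p := rfl

lemma θ_X_pow (n : ℕ) : θ (X ^ n) = (n : ℝ) • X ^ n := by
  rw [θ_apply, Polynomial.derivative_X_pow]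
  cases n with
  | zero => simp
  | succ n =>
    rw [Polynomial.smul_eq_C_mul, Nat.add_sub_cancel]
    ring

/-- `x d/dx + 8` -/
noncomputable def A : ℝ[X] →ₗ[ℝ] ℝ[X] := θ + (8:ℝ) • LinearMap.id

lemma A_apply (p : ℝ[X]) : A p = θ p + (8:ℝ) • p := rfl

lemma θ_A (p : ℝ[X]) : θ (A p) = A (θ p) := by
  rw [A_apply, A_apply, map_add, map_smul]

noncomputable def s (n : ℕ) : ℝ := 108 / (((n:ℝ) + 8) * ((n:ℝ)^2 - 2 * n + 27))

lemma quad_pos (n : ℝ) : 0 < n ^ 2 - 2 * n + 27 := by nlinarith [sq_nonneg (n - 1)]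

lemma key (p : ℝ[X]) : Lf s (θ (θ (A p))) - 2 * Lf s (θ (A p)) + 27 * Lf s (A p) = 108 * p.eval 1 := by
  induction p using Polynomial.induction_on' with
  | add p q hp hq =>
    simp only [map_add, Polynomial.eval_add]
    linarith
  | monomial n a =>
    have h2 : (monomial n a : ℝ[X]) = a • X ^ n := by
      rw [← Polynomial.C_mul_X_pow_eq_monomial, Polynomial.smul_eq_C_mul]
    rw [h2]
    simp only [map_smul, map_add, A_apply, θ_X_pow, Lf_X_pow, smul_eq_mul, Polynomial.eval_smul,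
      Polynomial.eval_pow, Polynomial.eval_X, one_pow]
    have h3 : ((n:ℝ) + 8) ≠ 0 := by positivity
    have h4 := (quad_pos (n:ℝ)).ne'
    have hs : s n * (((n:ℝ) + 8) * ((n:ℝ)^2 - 2 * n + 27)) = 108 :=
      div_mul_cancel₀ _ (mul_ne_zero h3 h4)
    linear_combination a * hs

lemma θ_pow (N : ℕ) : θ ((1 - X) ^ (N+1)) = ((N:ℝ) + 1) • ((1 - X) ^ (N+1) - (1 - X) ^ N) := by
  rw [θ_apply, Polynomial.derivative_pow, Polynomial.smul_eq_C_mul]
  simp
  ring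

noncomputable def g (N : ℕ) : ℝ[X] := A ((1 - X) ^ N)

lemma θ_g (N : ℕ) : θ (g (N+1)) = ((N:ℝ) + 1) • (g (N+1) - g N) := by
  unfold g
  rw [θ_A, θ_pow, map_smul, map_sub]

noncomputable def Ee (N : ℕ) : ℝ := Lf s (g N)
noncomputable def Ff (N : ℕ) : ℝ := Lf s (θ (g N))

lemma rel1 (N : ℕ) : Ff (N+1) = ((N:ℝ) + 1) * (Ee (N+1) - Ee N) := by
  unfold Ff Ee
  rw [θ_g, map_smul, map_sub, smul_eq_mul]

lemma rel2 (N : ℕ) : ((N:ℝ) + 1) * (Ff (N+1) - Ff N) - 2 * Ff (N+1) + 27 * Ee (N+1) = 0 := by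
  have h := key ((1 - X) ^ (N+1))
  have h1 : Lf s (θ (θ (g (N+1)))) = ((N:ℝ) + 1) * (Ff (N+1) - Ff N) := by
    rw [θ_g, map_smul, map_smul, map_sub, map_sub, smul_eq_mul]
    rfl
  have h2 : (((1 : ℝ[X]) - X) ^ (N+1)).eval 1 = 0 := by simp
  rw [h2, mul_zero] at h
  rw [← h1]
  exact h

noncomputable def Q (N : ℕ) : ℝ := Ff N ^ 2 - 2 * Ee N * Ff N + 27 * Ee N ^ 2

lemma Q_rec (N : ℕ) : Q N = (1 - 2 / ((N:ℝ) + 1) + 27 / ((N:ℝ) + 1) ^ 2) * Q (N+1) := by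
  have hN : (N:ℝ) + 1 ≠ 0 := by positivity
  have h1 : Ee N = Ee (N+1) - Ff (N+1) / ((N:ℝ) + 1) := by
    rw [rel1 N]; field_simp; ring
  have h2 : Ff N = Ff (N+1) - (2 * Ff (N+1) - 27 * Ee (N+1)) / ((N:ℝ) + 1) := by
    have := rel2 N
    field_simp
    linarith
  unfold Q
  rw [h1, h2]
  field_simp
  ring

lemma Q_zero : Q 0 = 432 := by
  have h1 : (1 - X : ℝ[X]) ^ 0 = X ^ 0 := by simp
  have h2 : Ee 0 = 4 := by
    unfold Ee g
    rw [h1, A_apply, map_add, map_smul, θ_X_pow, map_smul, Lf_X_pow]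
    simp [s]; norm_num
  have h3 : Ff 0 = 0 := by
    unfold Ff g
    rw [h1, A_apply, map_add, map_smul, θ_X_pow]
    simp [θ_apply]
  unfold Q
  rw [h2, h3]; norm_num

lemma fac_pos (N : ℕ) : 0 < 1 - 2 / ((N:ℝ) + 1) + 27 / ((N:ℝ) + 1) ^ 2 := by
  have hN : 0 < (N:ℝ) + 1 := by positivity
  have : 1 - 2 / ((N:ℝ) + 1) + 27 / ((N:ℝ) + 1) ^ 2 = (1 - 1 / ((N:ℝ) + 1)) ^ 2 + 26 / ((N:ℝ) + 1) ^ 2 := by
    field_simp; ring
  rw [this]
  positivity

lemma Q_pos (N : ℕ) : 0 < Q N := by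
  induction N with
  | zero => rw [Q_zero]; norm_num
  | succ N ih =>
    rw [Q_rec N] at ih
    exact (pos_iff_pos_of_mul_pos ih).mp (fac_pos N)

lemma Q_growth (N : ℕ) : ((N:ℝ) + 26) / 26 * Q 26 ≤ Q (N + 26) := by
  induction N with
  | zero => norm_num
  | succ N ih =>
    have h1 := Q_rec (N + 26)
    have h2 := Q_pos (N + 26 + 1)
    have hx : (0:ℝ) ≤ N := Nat.cast_nonneg N
    have h3 : 1 - 2 / (((N + 26 : ℕ):ℝ) + 1) + 27 / (((N + 26 : ℕ):ℝ) + 1) ^ 2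
        ≤ ((N:ℝ) + 26) / ((N:ℝ) + 27) := by
      push_cast
      have : ((N:ℝ) + 26) / ((N:ℝ) + 27) - (1 - 2 / ((N:ℝ) + 26 + 1) + 27 / ((N:ℝ) + 26 + 1) ^ 2)
          = N / ((N:ℝ) + 27) ^ 2 := by
        have h27 : (N:ℝ) + 27 ≠ 0 := by positivity
        have h27' : (N:ℝ) + 26 + 1 = N + 27 := by ring
        rw [h27']
        field_simp
        ring
      have h4 : 0 ≤ (N:ℝ) / ((N:ℝ) + 27) ^ 2 := by positivity
      linarith
    have h5 : Q (N + 26) ≤ ((N:ℝ) + 26) / ((N:ℝ) + 27) * Q (N + 26 + 1) := by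
      rw [h1]
      exact mul_le_mul_of_nonneg_right h3 h2.le
    have h6 : ((N:ℝ) + 26) / 26 * Q 26 ≤ ((N:ℝ) + 26) / ((N:ℝ) + 27) * Q (N + 26 + 1) := ih.trans h5
    have h7 : N + 1 + 26 = N + 26 + 1 := by omega
    rw [h7]
    push_cast
    have h8 : ((N:ℝ) + 1 + 26) / 26 * Q 26 = (((N:ℝ) + 27) / ((N:ℝ) + 26)) * (((N:ℝ) + 26) / 26 * Q 26) := by
      have : (N:ℝ) + 1 + 26 = N + 27 := by ring
      rw [this]
      field_simp
    have h9 : Q (N + 26 + 1) = (((N:ℝ) + 27) / ((N:ℝ) + 26)) * (((N:ℝ) + 26) / ((N:ℝ) + 27) * Q (N + 26 + 1)) := by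
      field_simp
    rw [h8, h9]
    exact mul_le_mul_of_nonneg_left h6 (by positivity)

/-! ### Bounds on the test polynomials -/

lemma binom_le {x : ℝ} (hx : x ∈ Icc (0:ℝ) 1) (N k : ℕ) (hk : k ≤ N) :
    x ^ k * (1 - x) ^ (N - k) * (N.choose k : ℝ) ≤ 1 := by
  have h1 := add_pow x (1 - x) N
  have h2 : x + (1 - x) = 1 := by ring
  rw [h2, one_pow] at h1
  refine le_trans ?_ h1.symm.le
  apply Finset.single_le_sum (f := fun m => x ^ m * (1 - x) ^ (N - m) * (N.choose m : ℝ))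
  · intro i _
    have := hx.1
    have : 0 ≤ 1 - x := by linarith [hx.2]
    positivity
  · simp; omega

lemma g_bound (N : ℕ) {x : ℝ} (hx : x ∈ Icc (0:ℝ) 1) :
    |(g (N+2)).eval x| ≤ 9 ∧ |(θ (g (N+2))).eval x| ≤ 11 := by
  have hx0 := hx.1
  have hx1 : 0 ≤ 1 - x := by linarith [hx.2]
  have h1 : x * (1 - x) ^ (N+1) * ((N:ℝ) + 2) ≤ 1 := by
    have := binom_le hx (N+2) 1 (by omega)
    rw [Nat.choose_one_right, pow_one] at this
    have h3 : N + 2 - 1 = N + 1 := by omega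
    rw [h3] at this
    push_cast at this
    exact this
  have h2 : x ^ 2 * (1 - x) ^ N * (((N:ℝ) + 2) * ((N:ℝ) + 1)) ≤ 2 := by
    have := binom_le hx (N+2) 2 (by omega)
    rw [Nat.cast_choose_two] at this
    have h3 : N + 2 - 2 = N := by omega
    rw [h3] at this
    push_cast at this
    nlinarith
  have h0 : (1 - x) ^ (N+2) ≤ 1 := pow_le_one₀ hx1 (by linarith)
  have h0' : 0 ≤ (1 - x) ^ (N+2) := by positivity
  have h1' : 0 ≤ x * (1 - x) ^ (N+1) * ((N:ℝ) + 2) := by positivity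
  have h2' : 0 ≤ x ^ 2 * (1 - x) ^ N * (((N:ℝ) + 2) * ((N:ℝ) + 1)) := by positivity
  have e1 : (θ ((1 - X) ^ (N+2) : ℝ[X])).eval x = - (x * (1 - x) ^ (N+1) * ((N:ℝ) + 2)) := by
    rw [θ_pow (N+1)]
    simp
    ring
  have e2 : (θ (θ ((1 - X) ^ (N+2) : ℝ[X]))).eval x
      = - (x * (1 - x) ^ (N+1) * ((N:ℝ) + 2))
        + x ^ 2 * (1 - x) ^ N * (((N:ℝ) + 2) * ((N:ℝ) + 1)) := by
    rw [θ_pow (N+1), map_smul, map_sub, θ_pow (N+1), θ_pow N]
    simp
    ring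
  have e3 : (((1:ℝ[X]) - X) ^ (N+2)).eval x = (1 - x) ^ (N+2) := by simp
  constructor
  · have : (g (N+2)).eval x = - (x * (1 - x) ^ (N+1) * ((N:ℝ) + 2)) + 8 * (1 - x) ^ (N+2) := by
      unfold g
      rw [A_apply, Polynomial.eval_add, e1, Polynomial.eval_smul, e3, smul_eq_mul]
    rw [this, abs_le]
    constructor <;> linarith
  · have : (θ (g (N+2))).eval x = - (x * (1 - x) ^ (N+1) * ((N:ℝ) + 2))
        + x ^ 2 * (1 - x) ^ N * (((N:ℝ) + 2) * ((N:ℝ) + 1))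
        + 8 * (- (x * (1 - x) ^ (N+1) * ((N:ℝ) + 2))) := by
      unfold g
      rw [A_apply, map_add, map_smul, Polynomial.eval_add, e2, Polynomial.eval_smul, e1, smul_eq_mul]
    rw [this, abs_le]
    constructor <;> linarith

/-- The functional `Lf s` is not bounded. -/
lemma unbounded (V : ℝ) (hV : ∀ (p : ℝ[X]) (S : ℝ), (∀ x ∈ Icc (0:ℝ) 1, |p.eval x| ≤ S) →
    |Lf s p| ≤ V * S) : False := by
  have hE : ∀ N, |Ee (N+2)| ≤ V * 9 := fun N => hV _ _ (fun x hx => (g_bound N hx).1)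
  have hF : ∀ N, |Ff (N+2)| ≤ V * 11 := fun N => hV _ _ (fun x hx => (g_bound N hx).2)
  have hV0 : 0 ≤ V := by
    have := (abs_nonneg _).trans (hE 0)
    linarith
  have hQ : ∀ N, Q (N+2) ≤ 5000 * V ^ 2 := by
    intro N
    have h1 := hE N
    have h2 := hF N
    have h3 : Ff (N+2) ^ 2 ≤ (V * 11) ^ 2 := by
      rw [← sq_abs]; gcongr
    have h4 : Ee (N+2) ^ 2 ≤ (V * 9) ^ 2 := by
      rw [← sq_abs (Ee (N+2))]; gcongr
    have h5 : - (2 * Ee (N+2) * Ff (N+2)) ≤ Ee (N+2) ^ 2 + Ff (N+2) ^ 2 := by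
      nlinarith [sq_nonneg (Ee (N+2) + Ff (N+2))]
    unfold Q
    nlinarith
  have hQ26 := Q_pos 26
  obtain ⟨N, hN⟩ := exists_nat_gt (5000 * V ^ 2 * 26 / Q 26)
  have h1 := Q_growth N
  have h2 := hQ (N + 24)
  have h3 : N + 24 + 2 = N + 26 := by omega
  rw [h3] at h2
  have h4 : ((N:ℝ) + 26) / 26 * Q 26 ≤ 5000 * V ^ 2 := h1.trans h2
  rw [div_lt_iff₀ hQ26] at hN
  nlinarith

/-! ### The weights -/

/-- the weights -/
noncomputable def w (c : ℝ) (x : ℝ) : ℝ := c + (1 - c) * (1 - x) ^ 3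

lemma w_cont (c : ℝ) : Continuous (w c) := by unfold w; fun_prop

lemma w_anti {c : ℝ} (h1 : c < 1) : AntitoneOn (w c) (Icc 0 1) := by
  intro x hx y hy hxy
  unfold w
  have h2 : (1 - y) ^ 3 ≤ (1 - x) ^ 3 := by
    apply pow_le_pow_left₀ (by linarith [hy.2]) (by linarith)
  nlinarith

lemma w_omega {c : ℝ} (h0 : 0 < c) (h1 : c < 1) : InOmega (w c) := by
  refine ⟨(w_cont c).continuousOn, fun x hx => ?_, by simp [w], (w_cont c).intervalIntegrable _ _, ?_⟩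
  · unfold w
    have : 0 ≤ (1 - x) ^ 3 := pow_nonneg (by linarith [hx.2]) 3
    have : 0 ≤ (1 - c) * (1 - x) ^ 3 := mul_nonneg (by linarith) this
    linarith
  · have h2 : IntervalIntegrable (fun x : ℝ => (1 - c) * (3 - 3 * x + x ^ 2)) MeasureTheory.volume 0 1 := by
      apply Continuous.intervalIntegrable
      fun_prop
    refine h2.congr ?_
    intro x hx
    rw [Set.uIoc_of_le zero_le_one] at hx
    have hx0 : x ≠ 0 := hx.1.ne'
    have h3 : 1 - w c x = ((1 - c) * (3 - 3 * x + x ^ 2)) * x := by unfold w; ring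
    have h4 : 0 ≤ ((1 - c) * (3 - 3 * x + x ^ 2)) * x := by
      have : 0 ≤ 3 - 3 * x + x ^ 2 := by nlinarith [hx.1, hx.2]
      have := hx.1.le
      have : 0 ≤ 1 - c := by linarith
      positivity
    simp only
    rw [h3, abs_of_nonneg h4]
    field_simp

lemma w_int (c : ℝ) (n : ℕ) : ∫ x in (0:ℝ)..1, w c x * x ^ n =
    1 / ((n:ℝ) + 1) - 3 * (1 - c) / ((n:ℝ) + 2) + 3 * (1 - c) / ((n:ℝ) + 3) - (1 - c) / ((n:ℝ) + 4) := by
  have h1 : ∀ x : ℝ, w c x * x ^ n = x ^ n - 3 * (1 - c) * x ^ (n+1) + 3 * (1 - c) * x ^ (n+2)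
      - (1 - c) * x ^ (n+3) := by
    intro x; unfold w; ring
  simp_rw [h1]
  rw [intervalIntegral.integral_sub, intervalIntegral.integral_add, intervalIntegral.integral_sub,
    intervalIntegral.integral_const_mul, intervalIntegral.integral_const_mul,
    intervalIntegral.integral_const_mul, integral_pow, integral_pow, integral_pow, integral_pow]
  · push_cast
    simp
    ring
  all_goals
    apply Continuous.intervalIntegrable
    fun_prop

lemma lam_eq (n : ℕ) : lam (w (1/72)) (w (1/36)) n = 1/2 + s n := by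
  cases n with
  | zero => simp [lam, s]; norm_num
  | succ n =>
    have h1 := quad_pos ((n:ℝ) + 1)
    have h2 : (0:ℝ) ≤ n := Nat.cast_nonneg n
    change (∫ x in (0:ℝ)..1, w (1/72) x * x ^ n) * (∫ x in (0:ℝ)..1, w (1/36) x * x ^ n)⁻¹
      = 1/2 + s (n+1)
    unfold s
    rw [w_int, w_int]
    have h3 : 1 / ((n:ℝ) + 1) - 3 * (1 - 1/36) / ((n:ℝ) + 2) + 3 * (1 - 1/36) / ((n:ℝ) + 3)
        - (1 - 1/36) / ((n:ℝ) + 4) = (((n:ℝ) + 9) * (((n:ℝ)+1) ^ 2 - 2 * ((n:ℝ)+1) + 27)) /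
          (36 * ((n:ℝ) + 1) * ((n:ℝ) + 2) * ((n:ℝ) + 3) * ((n:ℝ) + 4)) := by
      field_simp
      ring
    have h4 : 1 / ((n:ℝ) + 1) - 3 * (1 - 1/72) / ((n:ℝ) + 2) + 3 * (1 - 1/72) / ((n:ℝ) + 3)
        - (1 - 1/72) / ((n:ℝ) + 4) = (((n:ℝ) + 9) * (((n:ℝ)+1) ^ 2 - 2 * ((n:ℝ)+1) + 27) + 216) /
          (72 * ((n:ℝ) + 1) * ((n:ℝ) + 2) * ((n:ℝ) + 3) * ((n:ℝ) + 4)) := by
      field_simp
      ring
    rw [h3, h4]
    push_cast
    have h5 : (n:ℝ) + 1 + 8 = n + 9 := by ring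
    rw [h5]
    set q := (((n:ℝ)+1) ^ 2 - 2 * ((n:ℝ)+1) + 27)
    have hq : q ≠ 0 := h1.ne'
    field_simp
    ring

lemma ratio_anti : AntitoneOn (fun x => w (1/72) x / w (1/36) x) (Icc 0 1) := by
  intro x hx y hy hxy
  have h1 := (w_omega (c := 1/36) (by norm_num) (by norm_num)).2.1 x hx
  have h2 := (w_omega (c := 1/36) (by norm_num) (by norm_num)).2.1 y hy
  simp only
  rw [div_le_div_iff₀ h2 h1]
  unfold w
  have h3 : (1 - y) ^ 3 ≤ (1 - x) ^ 3 := by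
    apply pow_le_pow_left₀ (by linarith [hy.2]) (by linarith)
  nlinarith

/-- **Result.** There are `ω₁, ω₂ ∈ Ω`, both nonincreasing, with `ω₁/ω₂` nonincreasing, such that
the Hausdorff moment problem for `(λ_n)` has no solution of bounded variation (so in particular
no nondecreasing bounded solution). -/
theorem result : ∃ ω₁ ω₂ : ℝ → ℝ, InOmega ω₁ ∧ InOmega ω₂ ∧
    AntitoneOn ω₁ (Icc 0 1) ∧ AntitoneOn ω₂ (Icc 0 1) ∧
    AntitoneOn (fun x => ω₁ x / ω₂ x) (Icc 0 1) ∧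
    (¬ ∃ β : ℝ → ℝ, BoundedVariationOn β (Icc 0 1) ∧
      ∀ n : ℕ, IsRSIntegral (fun x => x ^ n) β (lam ω₁ ω₂ n)) ∧
    (¬ ∃ β : ℝ → ℝ, MonotoneOn β (Icc 0 1) ∧
      ∀ n : ℕ, IsRSIntegral (fun x => x ^ n) β (lam ω₁ ω₂ n)) := by
  have hmain : ¬ ∃ β : ℝ → ℝ, BoundedVariationOn β (Icc 0 1) ∧
      ∀ n : ℕ, IsRSIntegral (fun x => x ^ n) β (lam (w (1/72)) (w (1/36)) n) := by
    rintro ⟨β, hβ, h⟩
    have hL : ∀ p : ℝ[X], Lf (lam (w (1/72)) (w (1/36))) p = (1/2) * p.eval 1 + Lf s p := by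
      intro p
      induction p using Polynomial.induction_on' with
      | add p q hp hq => rw [map_add, map_add, hp, hq, Polynomial.eval_add]; ring
      | monomial n a =>
        have h2 : (monomial n a : ℝ[X]) = a • X ^ n := by
          rw [← Polynomial.C_mul_X_pow_eq_monomial, Polynomial.smul_eq_C_mul]
        rw [h2, map_smul, map_smul, Lf_X_pow, Lf_X_pow, lam_eq]
        simp
        ring
    apply unbounded ((eVariationOn β (Icc 0 1)).toReal + 1/2)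
    intro p S hS
    have h1 := rs_bound hβ (rs_poly h p) hS
    rw [hL] at h1
    have h2 := hS 1 ⟨zero_le_one, le_rfl⟩
    have h3 : |Lf s p| ≤ |(1/2) * p.eval 1 + Lf s p| + |(1/2) * p.eval 1| := by
      have := abs_sub ((1/2) * p.eval 1 + Lf s p) ((1/2) * p.eval 1)
      rwa [add_sub_cancel_left] at this
    have h4 : |(1/2) * p.eval 1| = 1/2 * |p.eval 1| := by
      rw [abs_mul, abs_of_pos (by norm_num : (0:ℝ) < 1/2)]
    rw [h4] at h3
    linarith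
  refine ⟨w (1/72), w (1/36), w_omega (by norm_num) (by norm_num), w_omega (by norm_num) (by norm_num),
    w_anti (by norm_num), w_anti (by norm_num), ratio_anti, hmain, ?_⟩
  rintro ⟨β, hβ, h⟩
  refine hmain ⟨β, ?_, h⟩
  apply MonotoneOn.boundedVariationOn (C := max |β 0| |β 1|) hβ
  intro x hx
  exact abs_le_max_abs_abs (hβ ⟨le_rfl, zero_le_one⟩ hx hx.1) (hβ hx ⟨zero_le_one, le_rfl⟩ hx.2)

end Pool.Agent.Results.MP_d888c7_an.NoBoundedVariation
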